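import Mathlib
import Pool.Agent.H11.DomGame

namespace Pool.Agent.Results.MP_2ce84e_co.UnionB

open Pool.Agent.H11.DomGame

theorem result : ∃ (a b c d : ℕ) (G₁ : SimpleGraph (Fin a)) (G₂ : SimpleGraph (Fin b))
    (H₁ : SimpleGraph (Fin c)) (H₂ : SimpleGraph (Fin d)), 0 < a ∧ 0 < b ∧ 0 < c ∧ 0 < d ∧
    gammaA G₁ = gammaA H₁ ∧ gammaB G₁ = gammaB H₁ ∧ gammaA G₂ = gammaA H₂ ∧
    gammaB G₂ = gammaB H₂ ∧ gammaB (G₁ ⊕g G₂) ≠ gammaB (H₁ ⊕g H₂) := by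
  refine ⟨2, 3, 2, 6, K2, K3, K2, K33, by norm_num, by norm_num, by norm_num, by norm_num,
    rfl, rfl, (K3_val true).trans (K33_val true).symm,
    (K3_val false).trans (K33_val false).symm, ?_⟩
  rw [B_K2_K33]; have := B_K2_K3; omega

end Pool.Agent.Results.MP_2ce84e_co.UnionB
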